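import Mathlib
import Pool.Graph.R_seed8.Results.MP_d5a689_co.InfinitelyManyTwo

/-!
Crew WC (MP_d5a689_co, Q2; on the list of table `problems`): the set `A` of the lengths with exactly two
weakly consecutive permutations HAS a logarithmic density `d > 0`; and `d` is the product `δ` of the question
as soon as the numbers `1 / log p` are linearly independent over `ℚ`.

`N`, `A`, `WeaklyConsecutive` are in `Pool.Agent.Results.MP_d5a689_co.InfinitelyManyTwo` (library). The parts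
are statements `S_XXX : Prop`; prove `theorem xxx : S_XXX` (other parts may be hypotheses).
-/

namespace Pool.Agent.H77.WC

open Filter Topology Set MeasureTheory
open scoped BigOperators

/-- `k` lies in one of the windows `[p ^ c, p ^ c + p ^ (c - 1))`, `c ≥ 1` -/
def Dp (p k : ℕ) : Prop := ∃ c, 1 ≤ c ∧ p ^ c ≤ k ∧ k < p ^ c + p ^ (c - 1)

/-- the set of the `k ≥ 1` outside all windows -/
def B : Set ℕ := {k | 1 ≤ k ∧ ∀ p : ℕ, p.Prime → ¬ Dp p k}

/-- the set of the `k ≥ 1` outside the windows of the primes of the finite set `S` -/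
def BS (S : Finset ℕ) : Set ℕ := {k | 1 ≤ k ∧ ∀ p ∈ S, ¬ Dp p k}

open Classical in
/-- the sum of `1 / k` over the `k ≤ x` in `C` -/
noncomputable def hs (C : Set ℕ) (x : ℕ) : ℝ := ∑ k ∈ (Finset.Icc 1 x).filter (· ∈ C), (1 : ℝ) / k

/-- `C` has logarithmic density `d` (integer `x`) -/
def LD (C : Set ℕ) (d : ℝ) : Prop := Tendsto (fun x : ℕ => hs C x / Real.log x) atTop (𝓝 d)

/-- the length `m_p = log (1 + 1 / p) / log p` of the arc of the prime `p` -/
noncomputable def mp (p : ℕ) : ℝ := Real.log (1 + 1 / p) / Real.log p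

open Classical in
/-- the periodic indicator function, period `L`, arc `[0, a)` -/
noncomputable def per (L a t : ℝ) : ℂ := if Int.fract (t / L) < a then 1 else 0

/-- the periodic model of the complement of the windows of the primes in `S` -/
noncomputable def GS (S : Finset ℕ) (t : ℝ) : ℂ := ∏ p ∈ S, (1 - per (Real.log p) (mp p) t)

/-- trigonometric polynomial -/
noncomputable def trig (s : Finset ℝ) (c : ℝ → ℂ) (t : ℝ) : ℂ :=
  ∑ l ∈ s, c l * Complex.exp (((l * t : ℝ) : ℂ) * Complex.I)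

/-- mean value of `g` is `m` -/
def MV (g : ℝ → ℂ) (m : ℂ) : Prop :=
  Tendsto (fun T : ℝ => (∫ t in (0 : ℝ)..T, g t) / (T : ℂ)) atTop (𝓝 m)

/-- `g` is approximable in mean by trigonometric polynomials with frequencies in `Λ` -/
def AP (Λ : AddSubgroup ℝ) (g : ℝ → ℂ) : Prop :=
  ∀ ε : ℝ, 0 < ε → ∃ (s : Finset ℝ) (c : ℝ → ℂ), (∀ l ∈ s, l ∈ Λ) ∧
    ∀ᶠ T : ℝ in atTop, (∫ t in (0 : ℝ)..T, ‖g t - trig s c t‖) ≤ ε * T

/-- measurable and bounded by one -/
def Bd1 (g : ℝ → ℂ) : Prop := Measurable g ∧ ∀ t, ‖g t‖ ≤ 1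

/-! ### combinatorics -/

/-- SWP (60 lines). Proof: `k ∈ [p^c, p^c + p^(c-1))`, `a = p^(c-1)`, `b = p^c`, `σ` = the transposition of the
positions `a` and `b` (as a permutation of `Fin k`, positions `a - 1`, `b - 1`). It is weakly consecutive: let
`m ∣ σ i`, `m ∣ i - j`. If `i, j ∉ {a, b}` clear. If `i = a`: `m ∣ b`, so `m = p^e` (`Nat.dvd_prime_pow`); for
`e ≤ c - 1`, `m ∣ a`, so `m ∣ j`, and then `m ∣ σ j` in all cases (`m ∣ a ∣ b`); for `e = c`: `b ∣ a - j` and
`1 ≤ j ≤ k < a + b` give `j = a`. If `i = b`: `m ∣ a`, hence `m ∣ b`, `m ∣ j`, so `m ∣ σ j`. If `i ∉ {a, b}`,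
`m ∣ i`, `m ∣ j`: `j = a` gives `m ∣ a ∣ b = σ a`; `j = b`: `m ∣ b`, `m = p^e`, `e ≤ c - 1` fine (`m ∣ a`), `e = c`:
`b ∣ i`, `i ≤ k < a + b ≤ 2 b`, so `i = b`, contradiction. For `k ≥ 5` the three permutations `1`, `Fin.revPerm`
(weakly consecutive, see the end of the proof of `N_two` in the library file) and `σ` are different (`σ` moves
exactly two points, `revPerm` moves at least four), so the set has at least three elements (it is finite:
`Set.toFinite`, `Set.ncard_eq_two` gives a contradiction). -/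
def S_SWP : Prop := ∀ k p : ℕ, 5 ≤ k → p.Prime → Dp p k →
  Pool.Agent.Results.MP_d5a689_co.InfinitelyManyTwo.N k ≠ 2

/-- EXZ (80 lines): the exceptional integers of the library have logarithmic density zero. Proof: `Ex k` means
`k`, `k + 1`, `k / 2` or `(k + 1) / 2` is prime. So `hs {k | Ex k} x ≤ C (1 + ∑_{q ≤ x + 1, q prime} 1 / q)`
(`k / 2 = q` has the two solutions `2 q, 2 q + 1`, `(k+1)/2 = q`: `2 q - 1, 2 q`; all `1 / k ≤ 2 / q`), and
`∑_{q ≤ x} 1 / q = o (log x)` (any upper bound in the library, e.g. Mertens `≤ log log x + C`; grep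
`Pool/Graph` for it; or the Chebyshev bound of Mathlib; or: `R43LD.ps P Y ≤ δ` (`R43LD.tail_small`, sum of
`1 / (q log q)` over `P < q ≤ Y`) gives `∑_{P < q ≤ x} 1 / q ≤ log x * ps P x ≤ δ log x`, which is enough!). -/
def S_EXZ : Prop := LD {k | R43LD.Ex k} 0

/-- TAI (100 lines). Proof: for a prime `p` and `c ≥ 1` the sum of `1 / k` over the window
`[p^c, p^c + p^(c-1))` is at most `p^(c-1) / p^c = 1 / p`; windows which meet `[1, x]` have `p^c ≤ x`, so
`p ≤ x` and `c ≤ log x / log p`. So the sum over `k ≤ x` in windows of primes `> P` is at most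
`∑_{P < p ≤ x} (log x / log p) / p = log x * R43LD.ps P x ≤ ε log x` (`R43LD.tail_small`). -/
def S_TAI : Prop := ∀ ε : ℝ, 0 < ε → ∃ P : ℕ, ∀ x : ℕ, 1 ≤ x →
  hs {k | ∃ p : ℕ, p.Prime ∧ P ≤ p ∧ Dp p k} x ≤ ε * Real.log x

/-! ### transfer to the line -/

open Classical in
/-- TRA (80 lines). Proof: put `u t = 1` if `⌊exp t⌋₊ ∈ C`, else `0`. `g = u` for `t ≥ t0`, so the integral of
`u` over `[0, T]` divided by `T` tends to `d` too. With `T = log (x + 1)`: on `[log k, log (k + 1))` the function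
is constant, so the integral is `∑_{k ≤ x, k ∈ C} log (1 + 1 / k)`, and `0 ≤ 1 / k - log (1 + 1 / k) ≤ 1 / k ^ 2`
(`log (1 + 1/k) ≥ 1 / (k + 1)`), so it differs from `hs C x` by at most `2`. Divide by `log x`;
`log (x + 1) / log x → 1`. -/
def S_TRA : Prop := ∀ (C : Set ℕ) (g : ℝ → ℂ) (t0 : ℝ) (d : ℝ), Measurable g → (∀ t, ‖g t‖ ≤ 1) →
  (∀ t : ℝ, t0 ≤ t → g t = if ⌊Real.exp t⌋₊ ∈ C then 1 else 0) → MV g d → LD C d

/-- PER (60 lines). Proof: let `c = ⌊t / log p⌋ ≥ 1`, so `p ^ c ≤ exp t < p ^ (c + 1)`. The ends of the windows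
are integers, so `⌊exp t⌋₊` is in the window `c'` iff `p ^ c' ≤ exp t < p ^ c' * (1 + 1 / p)`
(`p ^ c' + p ^ (c' - 1) = p ^ c' (1 + 1 / p)`), which forces `c' = c` and says `t / log p - c < mp p`. -/
def S_PER : Prop := ∀ (p : ℕ) (t : ℝ), p.Prime → Real.log p ≤ t →
  (Dp p ⌊Real.exp t⌋₊ ↔ Int.fract (t / Real.log p) < mp p)

/-! ### mean values -/

/-- TRG (80 lines): approximation of the indicator of `[0, a)` on the circle in mean. Proof: `L¹` density of
trigonometric polynomials on the circle (Mathlib: `span_fourierLp_closure_eq_top` on `AddCircle 1`, `p = 1`;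
or: a continuous periodic trapezoid function, then `span_fourier_closure_eq_top`). -/
def S_TRG : Prop := ∀ a ε : ℝ, 0 ≤ a → a ≤ 1 → 0 < ε → ∃ (s : Finset ℤ) (c : ℤ → ℂ),
  (∫ x in (0 : ℝ)..1, ‖(if x < a then (1 : ℂ) else 0) -
    ∑ n ∈ s, c n * Complex.exp (((2 * Real.pi * n * x : ℝ) : ℂ) * Complex.I)‖) ≤ ε

/-- PRA (60 lines): averages of periodic functions. Proof: substitution `t = L x`
(`intervalIntegral.integral_comp_div`), then `Function.Periodic` integrals over `[0, n]` are `n` times the integral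
over `[0, 1]` (`Function.Periodic.intervalIntegral_add_eq`, or Mathlib's
`Function.Periodic.tendsto_atTop_intervalIntegral...`), the rest of the interval contributes `O(1)`. -/
def S_PRA : Prop := ∀ (F : ℝ → ℂ) (L K : ℝ), 0 < L → Measurable F → (∀ x, ‖F x‖ ≤ K) → (∀ x, F (x + 1) = F x) →
  MV (fun t => F (t / L)) (∫ x in (0 : ℝ)..1, F x)

/-- PIN (70 lines): the periodic indicator is approximable with frequencies in `(2 π / L) ℤ`, mean value `a`.
Proof: TRG gives a trigonometric polynomial `Q` on the circle, `F x = ‖ind - Q‖` is periodic and bounded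
(as a function of `Int.fract x`), by PRA the average of `F (t / L)` tends to `∫_0^1 F ≤ ε / 2`, so it is eventually
`≤ ε`; `Q (t / L)` is a `trig` with the frequencies `2 π n / L` (image of `s`, injective). The mean: PRA for the
indicator of `fract x < a`. -/
def S_PIN : Prop := ∀ L a : ℝ, 0 < L → 0 ≤ a → a ≤ 1 →
  AP (AddSubgroup.zmultiples (2 * Real.pi / L)) (per L a) ∧ MV (per L a) a

open Classical in
/-- EXM (50 lines): the mean value of a trigonometric polynomial is its coefficient at `0`. Proof: for `l ≠ 0`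
the integral of `exp (i l t)` over `[0, T]` is bounded by `2 / |l|` (`integral_exp_mul_complex`). -/
def S_EXM : Prop := ∀ (s : Finset ℝ) (c : ℝ → ℂ), MV (trig s c) (if (0 : ℝ) ∈ s then c 0 else 0)

/-- MEA (80 lines): approximable functions have mean values. Proof: by EXM for every `ε` there is `m_ε` with
`limsup ‖mean_T g - m_ε‖ ≤ ε`; so `mean_T g` is Cauchy (`cauchy_map_iff`/ metric Cauchy) and converges in `ℂ`. -/
def S_MEA : Prop := ∀ (Λ : AddSubgroup ℝ) (g : ℝ → ℂ), Bd1 g → AP Λ g → ∃ m : ℂ, MV g m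

/-- PRD (90 lines): products. Proof: choose `Q` for `g` with error `ε / 2`; `Q` is bounded by
`K = 1 + ∑ ‖c l‖`; choose `P` for `f` with error `ε / (2 K)`. Then `‖f g - P Q‖ ≤ ‖f‖ ‖g - Q‖ + ‖Q‖ ‖f - P‖` and
`P Q` is a `trig` with frequencies `l + l'` (collect equal frequencies: `Finset.image`, coefficients
`∑_{l + l' = v}`). -/
def S_PRD : Prop := ∀ (Λ Λ' : AddSubgroup ℝ) (f g : ℝ → ℂ), Bd1 f → Bd1 g → AP Λ f → AP Λ' g →
  AP (Λ ⊔ Λ') (fun t => f t * g t)

/-- IND (120 lines): the mean value of a product with independent frequencies. Proof: choose `Q` for `g` and then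
`P` for `f` as in PRD. The mean of `P Q` is the sum of `c l c' l'` over `l + l' = 0`; then `l ∈ Λ ⊓ Λ' = ⊥`, so
only `l = l' = 0` and it is (mean `P`)(mean `Q`) (EXM). `|mean f - mean P| ≤ ε / (2 K)`,
`|mean g - mean Q| ≤ ε / 2`, `|mean (f g) - mean (P Q)| ≤ ε`; let `ε → 0` (note `|mean Q| ≤ 2`, `|mean f| ≤ 1`). -/
def S_IND : Prop := ∀ (Λ Λ' : AddSubgroup ℝ) (f g : ℝ → ℂ) (m m' : ℂ), Λ ⊓ Λ' = ⊥ → Bd1 f → Bd1 g → AP Λ f →
  AP Λ' g → MV f m → MV g m' → MV (fun t => f t * g t) (m * m')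

/-- the group generated by the frequencies `2 π / log p`, `p ∈ S` -/
def LS (S : Finset ℕ) : AddSubgroup ℝ := AddSubgroup.closure ((fun p : ℕ => 2 * Real.pi / Real.log p) '' S)

/-- FIN (80 lines): `GS S` is approximable (frequencies in `LS S`), bounded by one, with a real mean value in
`[0, 1]`. Proof: induction on `S` (`S_PIN`, `S_PRD`, and `1 - per` is approximable: add the constant function `1`,
frequency `0`), the mean exists by `S_MEA`; `GS S t` is `0` or `1` (real), so the mean is real and in `[0, 1]`. -/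
def S_FIN : Prop := ∀ S : Finset ℕ, (∀ p ∈ S, p.Prime) →
  Bd1 (GS S) ∧ AP (LS S) (GS S) ∧ ∃ d : ℝ, 0 ≤ d ∧ d ≤ 1 ∧ MV (GS S) d

/-- IPR (60 lines): under independence the mean is the product. Proof: induction on `S`: for `p ∉ S`,
`LS S ⊓ zmultiples (2 π / log p) = ⊥`: an element is `∑_{q ∈ S} n_q 2 π / log q = n 2 π / log p`, so by linear
independence `n = 0`. Then `S_IND` with `S_FIN`, `S_PIN` (`1 - per` has mean `1 - m_p`). -/
def S_IPR : Prop := LinearIndependent ℚ (fun p : Nat.Primes => 1 / Real.log (p : ℕ)) →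
  ∀ S : Finset ℕ, (∀ p ∈ S, p.Prime) → MV (GS S) ((∏ p ∈ S, (1 - mp p) : ℝ) : ℂ)

/-- L23 (50 lines): unconditionally for two primes. Proof: `n / log p = n' / log q` gives `p ^ n' = q ^ n`
(`n, n'` integers, wlog positive), so `n = n' = 0`; so `zmultiples ⊓ zmultiples = ⊥` and `S_IND`. -/
def S_L23 : Prop := ∀ p q : ℕ, p.Prime → q.Prime → p ≠ q →
  MV (GS {p, q}) (((1 - mp p) * (1 - mp q) : ℝ) : ℂ)

/-! ### assembly -/

/-- DBS (30 lines, from FIN, TRA, PER): the sets `BS S` have logarithmic densities. Proof: `t0` = the sum of the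
`log p`, `p ∈ S` (≥ every `log p`), `C = BS S`. -/
def S_DBS : Prop := ∀ S : Finset ℕ, (∀ p ∈ S, p.Prime) → ∀ d : ℝ, MV (GS S) d → LD (BS S) d

/-- LIM (80 lines): abstract limit argument. Proof: `d n` is decreasing (`C (n+1) ⊆ C n`) and `≥ 0`, let `d` be its
limit. `hs D x ≤ hs (C n) x` and `hs (C n) x ≤ hs D x + ε log x` for `n ≥ n_ε`. -/
def S_LIM : Prop := ∀ (C : ℕ → Set ℕ) (D : Set ℕ) (d : ℕ → ℝ), Antitone C → (∀ n, D ⊆ C n) → (∀ n, LD (C n) (d n)) →
  (∀ ε : ℝ, 0 < ε → ∃ n, ∀ x : ℕ, 1 ≤ x → hs (C n \ D) x ≤ ε * Real.log x) →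
  ∃ e : ℝ, Tendsto d atTop (𝓝 e) ∧ LD D e ∧ ∀ n, e ≤ d n

/-- TOA (50 lines, from SWP, EXZ and the library `N_two`): `A` and `B` differ by a subset of
`{k < 5} ∪ {Ex k}`, so `LD B d → LD A d`. (`hs` of the symmetric difference divided by `log x` tends to `0`.) -/
def S_TOA : Prop := ∀ d : ℝ, LD B d → LD Pool.Agent.Results.MP_d5a689_co.InfinitelyManyTwo.A d

/-- NRL (40 lines): from integer to real `x`. Proof: `log x / log ⌊x⌋₊ → 1`. -/
def S_NRL : Prop := ∀ (C : Set ℕ) (d : ℝ), LD C d →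
  Tendsto (fun x : ℝ => hs C ⌊x⌋₊ / Real.log x) atTop (𝓝 d)

end Pool.Agent.H77.WC
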